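import Mathlib
import Pool.Agent.H546Z.AmDefs
import Pool.Agent.H546Z.AmMain

set_option autoImplicit false

namespace Pool.Agent.Results.MP_4ec5c8_lc.NotProper

open Pool.Agent.H546Z.AmDefs

/-- Sanity check: systems of iterated Fréchet filters exist for every pairing. -/
theorem nonvacuous (π : ℕ × ℕ ≃ ℕ) : ∃ Fr, IsFrechetSystem π Fr :=
  Pool.Agent.H546Z.Am.exists_system π

/-- For all countable ordinals `1 ≤ α < β`, every `β`-amenable countable Borel equivalence
relation is `α`-amenable. -/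
theorem result (π : ℕ × ℕ ≃ ℕ) (Fr : Ordinal.{0} → Filter ℕ) (hFr : IsFrechetSystem π Fr)
    (α β : Ordinal.{0}) (h1 : 1 ≤ α) (hαβ : α < β) (hc : β.card ≤ Cardinal.aleph0)
    (X : Type) [MeasurableSpace X] [StandardBorelSpace X] (E : X → X → Prop) (hE : IsCBER E)
    (h : IsAmenable E hE.1 (Fr β)) : IsAmenable E hE.1 (Fr α) := by
  rw [← Pool.Agent.H546Z.Am.amen_iff hE] at h ⊢
  exact (Pool.Agent.H546Z.Am.collapse hE hFr h1 ((Ordinal.card_le_card hαβ.le).trans hc)).2
    ((Pool.Agent.H546Z.Am.collapse hE hFr (h1.trans hαβ.le) hc).1 h)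

end Pool.Agent.Results.MP_4ec5c8_lc.NotProper
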